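import Mathlib

/-!
A transfer-type Fitting pair. For a fixed group `U` and a homomorphism `χ` from `Aut U` to an
abelian group, `dd χ g` is the product, over all subgroups `X` of `G` isomorphic to `U`,
of the class of the conjugation map from `X` to `g X g⁻¹`.
-/

open Function

namespace Pool.Agent.P.MP_ddb4d7_al

variable {U : Type} [Group U] {A : Type} [CommGroup A] (χ : MulAut U →* A)
variable {G H K : Type} [Group G] [Group H] [Group K]

open Classical in
/-- Compare two embeddings with the same image. -/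
noncomputable def cmp (φ ψ : U →* G) : A :=
  if h : ∃ τ : MulAut U, ∀ u, φ u = ψ (τ u) then χ h.choose else 1

lemma cmp_eq {φ ψ : U →* G} (hψ : Injective ψ) (τ : MulAut U) (h : ∀ u, φ u = ψ (τ u)) :
    cmp χ φ ψ = χ τ := by
  have h' : ∃ τ : MulAut U, ∀ u, φ u = ψ (τ u) := ⟨τ, h⟩
  unfold cmp
  rw [dif_pos h']
  congr 1
  ext u
  exact hψ ((h'.choose_spec u).symm.trans (h u))

lemma exists_tau {φ ψ : U →* G} (hφ : Injective φ) (hψ : Injective ψ) (hr : φ.range = ψ.range) :
    ∃ τ : MulAut U, ∀ u, φ u = ψ (τ u) := by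
  refine ⟨(MonoidHom.ofInjective hφ).trans
    ((MulEquiv.subgroupCongr hr).trans (MonoidHom.ofInjective hψ).symm), fun u => ?_⟩
  simp only [MulEquiv.trans_apply]
  rw [MonoidHom.apply_ofInjective_symm]
  rfl

/-- Subgroups of `G` isomorphic to `U`. -/
def Sig (U G : Type) [Group U] [Group G] : Type :=
  {X : Subgroup G // ∃ φ : U →* G, Injective φ ∧ φ.range = X}

instance [Finite G] : Finite (Sig U G) := by
  unfold Sig; infer_instance

noncomputable instance [Finite G] : Fintype (Sig U G) := Fintype.ofFinite _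

/-- A chosen embedding with the given image. -/
noncomputable def sec (X : Sig U G) : U →* G := X.2.choose

lemma sec_inj (X : Sig U G) : Injective (sec X) := X.2.choose_spec.1

lemma sec_range (X : Sig U G) : (sec X).range = X.1 := X.2.choose_spec.2

/-- Image under an injective homomorphism. -/
def Sig.map (f : G →* H) (hf : Injective f) (X : Sig U G) : Sig U H :=
  ⟨X.1.map f, f.comp (sec X), hf.comp (sec_inj X), by rw [MonoidHom.range_comp, sec_range]⟩

lemma Sig.map_inj (f : G →* H) (hf : Injective f) : Injective (Sig.map (U := U) f hf) :=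
  fun _ _ h => Subtype.ext (Subgroup.map_injective hf (congrArg Subtype.val h))

/-- The cocycle. -/
noncomputable def kap (f : G →* H) (X : Sig U G) (Y : Sig U H) : A :=
  cmp χ (f.comp (sec X)) (sec Y)

lemma kap_mul (f : G →* H) (hf : Injective f) (f' : H →* K) (hf' : Injective f')
    (X : Sig U G) (Y : Sig U H) (Z : Sig U K) (hXY : X.1.map f = Y.1) (hYZ : Y.1.map f' = Z.1) :
    kap χ f X Y * kap χ f' Y Z = kap χ (f'.comp f) X Z := by
  obtain ⟨τ, hτ⟩ := exists_tau (φ := f.comp (sec X)) (ψ := sec Y) (hf.comp (sec_inj X))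
    (sec_inj Y) (by rw [MonoidHom.range_comp, sec_range, sec_range, hXY])
  obtain ⟨σ, hσ⟩ := exists_tau (φ := f'.comp (sec Y)) (ψ := sec Z) (hf'.comp (sec_inj Y))
    (sec_inj Z) (by rw [MonoidHom.range_comp, sec_range, sec_range, hYZ])
  unfold kap
  rw [cmp_eq χ (sec_inj Y) τ hτ, cmp_eq χ (sec_inj Z) σ hσ,
    cmp_eq χ (sec_inj Z) (σ * τ) (fun u => ?_), map_mul, mul_comm]
  have h1 := hτ u
  have h2 := hσ (τ u)
  simp only [MonoidHom.comp_apply] at h1 h2 ⊢
  rw [h1, h2]
  rfl

/-- Conjugation as a homomorphism. -/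
def cj (g : G) : G →* G := (MulAut.conj g).toMonoidHom

lemma cj_apply (g x : G) : cj g x = g * x * g⁻¹ := rfl

lemma cj_inj (g : G) : Injective (cj g) := (MulAut.conj g).injective

lemma cj_mul (g h : G) : cj (g * h) = (cj g).comp (cj h) := by
  ext x
  simp [cj_apply, mul_assoc]

lemma cj_one : cj (1 : G) = MonoidHom.id G := by
  ext x
  simp [cj_apply]

lemma cj_comp (f : G →* H) (g : G) : (cj (f g)).comp f = f.comp (cj g) := by
  ext x
  simp [cj_apply]

/-- Conjugation action on `Sig U G`. -/
def act (g : G) (X : Sig U G) : Sig U G := X.map (cj g) (cj_inj g)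

lemma act_val (g : G) (X : Sig U G) : (act g X).1 = X.1.map (cj g) := rfl

lemma act_mul (g h : G) (X : Sig U G) : act (g * h) X = act g (act h X) :=
  Subtype.ext (by rw [act_val, act_val, act_val, Subgroup.map_map, cj_mul])

lemma act_one (X : Sig U G) : act (1 : G) X = X :=
  Subtype.ext (by rw [act_val, cj_one, Subgroup.map_id])

lemma act_inj (g : G) : Injective (act (U := U) g) := Sig.map_inj _ (cj_inj g)

lemma prod_shift {T : Type} (s : Finset T) (σ : T → T) (hs : ∀ x ∈ s, σ x ∈ s)
    (hσ : Injective σ) (a : T → A) : ∏ x ∈ s, a (σ x) = ∏ x ∈ s, a x := by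
  classical
  have h1 : s.image σ = s := by
    refine Finset.eq_of_subset_of_card_le (fun y hy => ?_) ?_
    · obtain ⟨x, hx, rfl⟩ := Finset.mem_image.1 hy
      exact hs x hx
    · rw [Finset.card_image_of_injective _ hσ]
  conv_rhs => rw [← h1]
  rw [Finset.prod_image fun x _ y _ h => hσ h]

/-- The transfer-type map. -/
noncomputable def dd [Finite G] (g : G) : A := ∏ X : Sig U G, kap χ (cj g) X (act g X)

lemma kap_act_mul (g h : G) (X Y Z : Sig U G) (hY : act h X = Y) (hZ : act g Y = Z) :
    kap χ (cj h) X Y * kap χ (cj g) Y Z = kap χ (cj (g * h)) X Z := by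
  rw [cj_mul]
  exact kap_mul χ _ (cj_inj h) _ (cj_inj g) X Y Z (by rw [← hY]; rfl) (by rw [← hZ]; rfl)

lemma dd_mul [Finite G] (g h : G) : dd χ (g * h) = dd χ g * dd χ h := by
  unfold dd
  rw [← prod_shift Finset.univ (act h) (fun _ _ => Finset.mem_univ _) (act_inj h)
    (fun X => kap χ (cj g) X (act g X)), ← Finset.prod_mul_distrib]
  refine Finset.prod_congr rfl fun X _ => ?_
  rw [mul_comm, kap_act_mul χ g h X _ _ rfl rfl, act_mul]

/-- `dd` as a homomorphism. -/
noncomputable def ddHom [Finite G] : G →* A := MonoidHom.mk' (dd χ) (dd_mul χ)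

/-- `χ` kills every automorphism acting trivially modulo a proper subgroup. -/
def Kills : Prop :=
  ∀ (τ : MulAut U) (M : Subgroup U), M ≠ ⊤ → (∀ u, u⁻¹ * τ u ∈ M) → χ τ = 1

lemma kap_stab (hχ : Kills χ) (N : Subgroup G) (hN : N.Normal) (s : G) (hs : s ∈ N)
    (X : Sig U G) (hX : ¬ X.1 ≤ N) (hsX : act s X = X) : kap χ (cj s) X X = 1 := by
  obtain ⟨τ, hτ⟩ := exists_tau (φ := (cj s).comp (sec X)) (ψ := sec X)
    ((cj_inj s).comp (sec_inj X)) (sec_inj X)
    (by rw [MonoidHom.range_comp, sec_range, ← act_val, hsX])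
  unfold kap
  rw [cmp_eq χ (sec_inj X) τ hτ]
  refine hχ τ (N.comap (sec X)) (fun h => hX ?_) fun u => ?_
  · rw [← sec_range]
    rintro _ ⟨u, rfl⟩
    have : u ∈ N.comap (sec X) := h ▸ Subgroup.mem_top u
    exact this
  · rw [Subgroup.mem_comap, map_mul, map_inv, ← hτ u, MonoidHom.comp_apply, cj_apply]
    have := hN.conj_mem s hs (sec X u)⁻¹
    rw [inv_inv] at this
    have h2 := N.mul_mem this (N.inv_mem hs)
    simpa only [mul_assoc] using h2

lemma act_le_iff (N : Subgroup G) (hN : N.Normal) (g : G) (X : Sig U G) :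
    (act g X).1 ≤ N ↔ X.1 ≤ N := by
  rw [act_val, Subgroup.map_le_iff_le_comap]
  have : N.comap (cj g) = N := by
    ext x
    rw [Subgroup.mem_comap, cj_apply]
    constructor
    · intro h
      have := hN.conj_mem _ h g⁻¹
      simpa [mul_assoc] using this
    · exact fun h => hN.conj_mem x h g
  rw [this]

open Classical in
lemma prod_outside [Finite G] (hχ : Kills χ) (N : Subgroup G) (hN : N.Normal) (n : G)
    (hn : n ∈ N) :
    ∏ X ∈ Finset.univ.filter (fun X : Sig U G => ¬ X.1 ≤ N), kap χ (cj n) X (act n X) = 1 := by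
  let r : Setoid (Sig U G) :=
    { r := fun X Y => ∃ m ∈ N, act m X = Y
      iseqv :=
        { refl := fun X => ⟨1, N.one_mem, act_one X⟩
          symm := by
            rintro X Y ⟨m, hm, rfl⟩
            exact ⟨m⁻¹, N.inv_mem hm, by rw [← act_mul, inv_mul_cancel, act_one]⟩
          trans := by
            rintro X Y Z ⟨m, hm, rfl⟩ ⟨m', hm', rfl⟩
            exact ⟨m' * m, N.mul_mem hm' hm, act_mul _ _ _⟩ } }
  let rep : Sig U G → Sig U G := fun X => (Quotient.mk r X).out
  have hrep : ∀ X, ∃ m ∈ N, act m (rep X) = X := fun X => Quotient.mk_out (s := r) X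
  choose m hmN hm using hrep
  have hrepn : ∀ X, rep (act n X) = rep X := fun X => by
    have : Quotient.mk r X = Quotient.mk r (act n X) := Quotient.sound ⟨n, hn, rfl⟩
    simp only [rep, this]
  let ψ : Sig U G → A := fun X => kap χ (cj (m X)) (rep X) X
  set s := Finset.univ.filter (fun X : Sig U G => ¬ X.1 ≤ N) with hs
  have key : ∀ X ∈ s, ψ X * kap χ (cj n) X (act n X) = ψ (act n X) := by
    intro X hX
    have hX' : ¬ X.1 ≤ N := (Finset.mem_filter.1 hX).2
    have hR : ¬ (rep X).1 ≤ N := fun h => hX' (by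
      rw [← hm X]; exact (act_le_iff N hN _ _).2 h)
    have e1 := kap_act_mul χ n (m X) (rep X) X (act n X) (hm X) rfl
    have hm' : act (m (act n X)) (rep X) = act n X := by
      have := hm (act n X)
      rwa [hrepn] at this
    have hst : act ((m (act n X))⁻¹ * (n * m X)) (rep X) = rep X := by
      rw [act_mul, act_mul, hm X]
      apply act_inj (m (act n X))
      rw [← act_mul, mul_inv_cancel, act_one, hm']
    have e2 := kap_act_mul χ (m (act n X)) ((m (act n X))⁻¹ * (n * m X)) (rep X) (rep X)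
      (act n X) hst hm'
    rw [kap_stab χ hχ N hN _ (N.mul_mem (N.inv_mem (hmN _)) (N.mul_mem hn (hmN _))) _ hR hst,
      one_mul, mul_inv_cancel_left] at e2
    simp only [ψ]
    rw [e1, hrepn, e2]
  have h1 := Finset.prod_congr rfl key
  rw [Finset.prod_mul_distrib, prod_shift s (act n) (fun X hX => ?_) (act_inj n) ψ] at h1
  · exact mul_eq_left.1 h1
  · refine Finset.mem_filter.2 ⟨Finset.mem_univ _, fun h => (Finset.mem_filter.1 hX).2 ?_⟩
    exact (act_le_iff N hN _ _).1 h

open Classical in
theorem dd_map [Finite G] [Finite H] (hχ : Kills χ) (f : G →* H) (hf : Injective f)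
    (hN : f.range.Normal) (n : G) : dd χ (f n) = dd χ n := by
  unfold dd
  rw [← Finset.prod_filter_mul_prod_filter_not Finset.univ (fun X : Sig U H => X.1 ≤ f.range),
    prod_outside χ hχ f.range hN (f n) ⟨n, rfl⟩, mul_one]
  have himg : Finset.univ.filter (fun X : Sig U H => X.1 ≤ f.range) =
      Finset.univ.image (Sig.map (U := U) f hf) := by
    ext X
    simp only [Finset.mem_filter, Finset.mem_univ, true_and, Finset.mem_image]
    constructor
    · intro hX
      have hmem : ∀ u, sec X u ∈ f.range := fun u => hX (by rw [← sec_range]; exact ⟨u, rfl⟩)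
      let φ : U →* G := (MonoidHom.ofInjective hf).symm.toMonoidHom.comp
        ((sec X).codRestrict f.range hmem)
      have hφ : f.comp φ = sec X := by
        ext u
        simp only [φ, MonoidHom.comp_apply, MulEquiv.coe_toMonoidHom]
        rw [MonoidHom.apply_ofInjective_symm]
        rfl
      refine ⟨⟨φ.range, φ, ?_, rfl⟩, Subtype.ext ?_⟩
      · have : Injective (f.comp φ) := hφ ▸ sec_inj X
        exact Injective.of_comp (f := f) this
      · change φ.range.map f = X.1
        rw [← MonoidHom.range_comp, hφ, sec_range]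
    · rintro ⟨Y, rfl⟩
      exact Subgroup.map_le_range f _
  rw [himg, Finset.prod_image fun x _ y _ h => Sig.map_inj f hf h]
  let a : Sig U G → A := fun Y => kap χ f Y (Y.map f hf)
  have key : ∀ Y ∈ (Finset.univ : Finset (Sig U G)),
      a Y * kap χ (cj (f n)) (Y.map f hf) (act (f n) (Y.map f hf)) =
        kap χ (cj n) Y (act n Y) * a (act n Y) := by
    intro Y _
    have e0 : act (f n) (Y.map f hf) = (act n Y).map f hf := Subtype.ext (by
      change (Y.1.map f).map (cj (f n)) = (Y.1.map (cj n)).map f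
      rw [Subgroup.map_map, Subgroup.map_map, cj_comp])
    simp only [a]
    rw [kap_mul χ f hf _ (cj_inj _) Y _ _ rfl rfl, kap_mul χ _ (cj_inj _) f hf Y _ _ rfl rfl,
      cj_comp, e0]
  have h1 := Finset.prod_congr rfl key
  rw [Finset.prod_mul_distrib, Finset.prod_mul_distrib,
    prod_shift Finset.univ (act n) (fun _ _ => Finset.mem_univ _) (act_inj n) a, mul_comm] at h1
  exact mul_right_cancel h1

end Pool.Agent.P.MP_ddb4d7_al
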