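import Pool.Agent.P.MP_ddb4d7_al.Pair

/-!
A special group `SG` of order `2 ^ 7`, an automorphism `θ` of order three, and a homomorphism
from `Aut SG` onto the cyclic group of order three.
-/

open Function

set_option synthInstance.maxSize 100000

namespace Pool.Agent.P.MP_ddb4d7_al

/-- Elements `(x, y, e, w)` with `x = a + bω`, `y = c + dω`, `w = f + gω` in the field
with four elements and `e` in the field with two elements. -/
@[ext]
structure SG where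
  a : ZMod 2
  b : ZMod 2
  c : ZMod 2
  d : ZMod 2
  e : ZMod 2
  f : ZMod 2
  g : ZMod 2
  deriving DecidableEq

namespace SG

/-- Coordinates. -/
def coords : (ZMod 2 × ZMod 2 × ZMod 2 × ZMod 2 × ZMod 2 × ZMod 2 × ZMod 2) ≃ SG where
  toFun x := ⟨x.1, x.2.1, x.2.2.1, x.2.2.2.1, x.2.2.2.2.1, x.2.2.2.2.2.1, x.2.2.2.2.2.2⟩
  invFun u := (u.a, u.b, u.c, u.d, u.e, u.f, u.g)
  left_inv _ := rfl
  right_inv _ := rfl

instance : Fintype SG := Fintype.ofEquiv _ coords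

/-- First cocycle component. -/
def b0 (u v : SG) : ZMod 2 :=
  u.a * v.a + u.b * v.b + u.b * v.a + u.c * v.c + u.d * v.d + u.d * v.c

/-- Second cocycle component. -/
def b1 (u v : SG) : ZMod 2 :=
  u.a * v.a + u.b * v.b + u.a * v.c + u.b * v.d + u.c * v.d + u.d * v.c + u.d * v.d

/-- Third cocycle component. -/
def b2 (u v : SG) : ZMod 2 :=
  u.a * v.b + u.b * v.a + u.b * v.b + u.a * v.d + u.b * v.c + u.b * v.d + u.c * v.c + u.c * v.d
    + u.d * v.c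

instance : Mul SG := ⟨fun u v => ⟨u.a + v.a, u.b + v.b, u.c + v.c, u.d + v.d,
  u.e + v.e + b0 u v, u.f + v.f + b1 u v, u.g + v.g + b2 u v⟩⟩

instance : One SG := ⟨⟨0, 0, 0, 0, 0, 0, 0⟩⟩

instance : Inv SG := ⟨fun u => ⟨-u.a, -u.b, -u.c, -u.d, -u.e + b0 u u, -u.f + b1 u u,
  -u.g + b2 u u⟩⟩

lemma mul_def (u v : SG) : u * v = ⟨u.a + v.a, u.b + v.b, u.c + v.c, u.d + v.d,
  u.e + v.e + b0 u v, u.f + v.f + b1 u v, u.g + v.g + b2 u v⟩ := rfl

lemma one_def : (1 : SG) = ⟨0, 0, 0, 0, 0, 0, 0⟩ := rfl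

lemma inv_def (u : SG) : u⁻¹ = ⟨-u.a, -u.b, -u.c, -u.d, -u.e + b0 u u, -u.f + b1 u u,
  -u.g + b2 u u⟩ := rfl

instance : Group SG := Group.ofLeftAxioms
  (fun u v w => by ext <;> simp only [mul_def, b0, b1, b2] <;> ring)
  (fun u => by ext <;> simp only [mul_def, one_def, b0, b1, b2] <;> ring)
  (fun u => by ext <;> simp only [mul_def, one_def, inv_def, b0, b1, b2] <;> ring)

lemma card : Nat.card SG = 128 := by
  rw [Nat.card_eq_fintype_card]
  decide +kernel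

lemma pow_four : ∀ u : SG, u * u * (u * u) = 1 := by decide +kernel

/-- The underlying map of the automorphism of order three. -/
def th (u : SG) : SG := ⟨u.b, u.a + u.b, u.d, u.c + u.d, u.e, u.f + u.g, u.f⟩

lemma th_aux : ∀ a b c d a' b' c' d' : ZMod 2,
    b0 ⟨a, b, c, d, 0, 0, 0⟩ ⟨a', b', c', d', 0, 0, 0⟩ =
      b0 ⟨b, a + b, d, c + d, 0, 0, 0⟩ ⟨b', a' + b', d', c' + d', 0, 0, 0⟩ ∧
    b1 ⟨a, b, c, d, 0, 0, 0⟩ ⟨a', b', c', d', 0, 0, 0⟩ +
      b2 ⟨a, b, c, d, 0, 0, 0⟩ ⟨a', b', c', d', 0, 0, 0⟩ =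
      b1 ⟨b, a + b, d, c + d, 0, 0, 0⟩ ⟨b', a' + b', d', c' + d', 0, 0, 0⟩ ∧
    b1 ⟨a, b, c, d, 0, 0, 0⟩ ⟨a', b', c', d', 0, 0, 0⟩ =
      b2 ⟨b, a + b, d, c + d, 0, 0, 0⟩ ⟨b', a' + b', d', c' + d', 0, 0, 0⟩ := by decide +kernel

lemma th_mul : ∀ u v : SG, th (u * v) = th u * th v := by
  intro u v
  obtain ⟨h0, h1, h2⟩ := th_aux u.a u.b u.c u.d v.a v.b v.c v.d
  simp only [b0, b1, b2] at h0 h1 h2
  ext <;> simp only [mul_def, th, b0, b1, b2]
  · ring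
  · ring
  · linear_combination h0
  · linear_combination h1
  · linear_combination h2

lemma th_three : ∀ u : SG, th (th (th u)) = u := by decide +kernel

/-- The automorphism of order three. -/
def theta : MulAut SG where
  toFun := th
  invFun := fun u => th (th u)
  left_inv := th_three
  right_inv := th_three
  map_mul' := th_mul

/-- The image in the Frattini quotient, lifted back to `SG`. -/
def pr (u : SG) : SG := ⟨u.a, u.b, u.c, u.d, 0, 0, 0⟩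

/-- The square, as a function of the first four coordinates. -/
def sq (a b c d : ZMod 2) : SG :=
  ⟨0, 0, 0, 0, b0 ⟨a, b, c, d, 0, 0, 0⟩ ⟨a, b, c, d, 0, 0, 0⟩,
    b1 ⟨a, b, c, d, 0, 0, 0⟩ ⟨a, b, c, d, 0, 0, 0⟩, b2 ⟨a, b, c, d, 0, 0, 0⟩ ⟨a, b, c, d, 0, 0, 0⟩⟩

lemma mul_self : ∀ u : SG, u * u = sq u.a u.b u.c u.d := by decide +kernel

/-- A characteristic quotient of order four. -/
def rho (u : SG) : ZMod 2 × ZMod 2 := (u.a + u.c + u.d, u.b + u.c)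

/-- Multiplication by the powers of `ω`. -/
def om (k : ZMod 3) (s : ZMod 2 × ZMod 2) : ZMod 2 × ZMod 2 :=
  if k = 0 then s else if k = 1 then (s.2, s.1 + s.2) else (s.1 + s.2, s.1)

lemma om_add : ∀ (k l : ZMod 3) (s : ZMod 2 × ZMod 2), om (k + l) s = om k (om l s) := by
  decide +kernel

lemma om_inj : ∀ k l : ZMod 3, om k (1, 0) = om l (1, 0) → k = l := by decide +kernel

/-- First generator. -/
def E1 : SG := ⟨1, 0, 0, 0, 0, 0, 0⟩
/-- Second generator. -/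
def E2 : SG := ⟨0, 1, 0, 0, 0, 0, 0⟩
/-- Third generator. -/
def E3 : SG := ⟨0, 0, 1, 0, 0, 0, 0⟩
/-- Fourth generator. -/
def E4 : SG := ⟨0, 0, 0, 1, 0, 0, 0⟩

/-- `u` if `t = 1` and the identity if `t = 0`. -/
def pw (u : SG) (t : ZMod 2) : SG := if t = 0 then 1 else u

lemma map_pw (α : MulAut SG) (u : SG) (t : ZMod 2) : α (pw u t) = pw (α u) t := by
  unfold pw
  split_ifs
  · exact map_one α
  · rfl

lemma decomp : ∀ u : SG, ∃ x y z : ZMod 2, u = pw E1 u.a * pw E2 u.b * pw E3 u.c * pw E4 u.d *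
    (pw (E1 * E1) x * pw (E2 * E2) y * pw (E1 * E2 * (E1 * E2)) z) := by decide +kernel

lemma fin_check : ∀ a1 b1 c1 d1 : ZMod 2, sq a1 b1 c1 d1 ≠ 1 →
    ∀ a2 b2 c2 d2 a3 b3 c3 d3 : ZMod 2,
    sq a3 b3 c3 d3 = sq (a1 + a2) (b1 + b2) (c1 + c2) (d1 + d2) →
    sq (a1 + a3) (b1 + b3) (c1 + c3) (d1 + d3) = sq a1 b1 c1 d1 * sq a2 b2 c2 d2 →
    sq (a2 + a3) (b2 + b3) (c2 + c3) (d2 + d3) =
      sq a1 b1 c1 d1 * sq (a1 + a2) (b1 + b2) (c1 + c2) (d1 + d2) →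
    ∀ a4 b4 c4 d4 : ZMod 2,
    sq a4 b4 c4 d4 = sq a1 b1 c1 d1 →
    sq (a3 + a4) (b3 + b4) (c3 + c4) (d3 + d4) = sq a2 b2 c2 d2 →
    sq (a1 + a4) (b1 + b4) (c1 + c4) (d1 + d4) = sq a1 b1 c1 d1 * sq a2 b2 c2 d2 →
    sq (a2 + a4) (b2 + b4) (c2 + c4) (d2 + d4) =
      sq a2 b2 c2 d2 * sq (a1 + a2) (b1 + b2) (c1 + c2) (d1 + d2) →
    ∃ k : ZMod 3,
      (∀ a b c d : ZMod 2,
        rho ⟨a * a1 + b * a2 + c * a3 + d * a4, a * b1 + b * b2 + c * b3 + d * b4,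
          a * c1 + b * c2 + c * c3 + d * c4, a * d1 + b * d2 + c * d3 + d * d4, 0, 0, 0⟩ =
          om k (rho ⟨a, b, c, d, 0, 0, 0⟩)) ∧
      (k ≠ 0 → ∀ s t u v : ZMod 2, ∃ a b c d : ZMod 2,
        -a + (a * a1 + b * a2 + c * a3 + d * a4) = s ∧
        -b + (a * b1 + b * b2 + c * b3 + d * b4) = t ∧
        -c + (a * c1 + b * c2 + c * c3 + d * c4) = u ∧
        -d + (a * d1 + b * d2 + c * d3 + d * d4) = v) := by
  decide +kernel

lemma lin_aux : ∀ (t : ZMod 2) (u : SG), (pw u t).a = t * u.a ∧ (pw u t).b = t * u.b ∧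
    (pw u t).c = t * u.c ∧ (pw u t).d = t * u.d := by decide +kernel

lemma lin (α : MulAut SG) (u : SG) :
    (α u).a = u.a * (α E1).a + u.b * (α E2).a + u.c * (α E3).a + u.d * (α E4).a ∧
    (α u).b = u.a * (α E1).b + u.b * (α E2).b + u.c * (α E3).b + u.d * (α E4).b ∧
    (α u).c = u.a * (α E1).c + u.b * (α E2).c + u.c * (α E3).c + u.d * (α E4).c ∧
    (α u).d = u.a * (α E1).d + u.b * (α E2).d + u.c * (α E3).d + u.d * (α E4).d := by
  obtain ⟨x, y, z, h⟩ := decomp u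
  have h2 := congrArg α h
  simp only [map_mul, map_pw] at h2
  rw [mul_self (α E1), mul_self (α E2), mul_self (α E1 * α E2)] at h2
  rw [h2]
  simp only [mul_def, (lin_aux _ _).1, (lin_aux _ _).2.1, (lin_aux _ _).2.2.1,
    (lin_aux _ _).2.2.2, sq, mul_zero, add_zero, and_self]

lemma exists_k (α : MulAut SG) : ∃ k : ZMod 3, (∀ u, rho (α u) = om k (rho u)) ∧
    (k ≠ 0 → ∀ t : SG, ∃ u : SG, pr (u⁻¹ * α u) = pr t) := by
  have r0 : α E1 * α E1 ≠ 1 := by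
    rw [← map_mul, Ne, map_eq_one_iff α α.injective]
    decide +kernel
  have r1 := congrArg α (by decide +kernel : E3 * E3 = E1 * E2 * (E1 * E2))
  have r2 := congrArg α (by decide +kernel : E1 * E3 * (E1 * E3) = E1 * E1 * (E2 * E2))
  have r3 := congrArg α
    (by decide +kernel : E2 * E3 * (E2 * E3) = E1 * E1 * (E1 * E2 * (E1 * E2)))
  have r4 := congrArg α (by decide +kernel : E4 * E4 = E1 * E1)
  have r5 := congrArg α (by decide +kernel : E3 * E4 * (E3 * E4) = E2 * E2)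
  have r6 := congrArg α (by decide +kernel : E1 * E4 * (E1 * E4) = E1 * E1 * (E2 * E2))
  have r7 := congrArg α
    (by decide +kernel : E2 * E4 * (E2 * E4) = E2 * E2 * (E1 * E2 * (E1 * E2)))
  simp only [map_mul] at r1 r2 r3 r4 r5 r6 r7
  simp only [mul_self] at r0 r1 r2 r3 r4 r5 r6 r7
  obtain ⟨k, hk1, hk2⟩ := fin_check _ _ _ _ r0 _ _ _ _ _ _ _ _ r1 r2 r3 _ _ _ _ r4 r5 r6 r7
  refine ⟨k, fun u => ?_, fun hk t => ?_⟩
  · obtain ⟨h1, h2, h3, h4⟩ := lin α u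
    have := hk1 u.a u.b u.c u.d
    simp only [rho] at this ⊢
    rw [h1, h2, h3, h4]
    exact this
  · obtain ⟨a, b, c, d, h5, h6, h7, h8⟩ := hk2 hk t.a t.b t.c t.d
    refine ⟨⟨a, b, c, d, 0, 0, 0⟩, ?_⟩
    obtain ⟨h1, h2, h3, h4⟩ := lin α ⟨a, b, c, d, 0, 0, 0⟩
    simp only [pr, mul_def, inv_def, h1, h2, h3, h4, h5, h6, h7, h8]

lemma k_unique {α : MulAut SG} {k l : ZMod 3} (hk : ∀ u, rho (α u) = om k (rho u))
    (hl : ∀ u, rho (α u) = om l (rho u)) : k = l :=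
  om_inj k l ((hk E1).symm.trans (hl E1))

/-- The action on the characteristic quotient of order four. -/
noncomputable def chi : MulAut SG →* Multiplicative (ZMod 3) :=
  MonoidHom.mk' (fun α => Multiplicative.ofAdd (exists_k α).choose) (fun α β => by
    rw [← ofAdd_add]
    congr 1
    refine k_unique (exists_k (α * β)).choose_spec.1 fun u => ?_
    rw [om_add, ← (exists_k β).choose_spec.1 u, ← (exists_k α).choose_spec.1 (β u)]
    rfl)

lemma chi_theta : chi theta ≠ 1 := by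
  have h1 : ∀ u, rho (theta u) = om 1 (rho u) := by
    change ∀ u, rho (th u) = om 1 (rho u)
    decide +kernel
  have h2 := k_unique (exists_k theta).choose_spec.1 h1
  change Multiplicative.ofAdd (exists_k theta).choose ≠ 1
  rw [h2]
  decide

lemma sq_aux : ∀ e f g : ZMod 2, ∃ x y z : ZMod 2,
    pw (E1 * E1) x * pw (E2 * E2) y * pw (E1 * E2 * (E1 * E2)) z = ⟨0, 0, 0, 0, e, f, g⟩ := by
  decide +kernel

lemma sq_of_pr : ∀ u v : SG, pr u = pr v → u * u = v * v ∧ ∃ x y z : ZMod 2,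
    v = u * (pw (E1 * E1) x * pw (E2 * E2) y * pw (E1 * E2 * (E1 * E2)) z) := by
  intro u v h
  simp only [pr, SG.mk.injEq, and_true] at h
  obtain ⟨h1, h2, h3, h4⟩ := h
  refine ⟨by rw [mul_self, mul_self, h1, h2, h3, h4], ?_⟩
  obtain ⟨x, y, z, e⟩ := sq_aux (v.e - u.e) (v.f - u.f) (v.g - u.g)
  refine ⟨x, y, z, ?_⟩
  rw [e]
  ext <;> simp only [mul_def, b0, b1, b2, h1, h2, h3, h4] <;> ring

lemma chi_kills : Kills chi := by
  intro τ M hM hτ
  by_contra hne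
  have hk : (exists_k τ).choose ≠ 0 := fun h => hne (by
    change Multiplicative.ofAdd (exists_k τ).choose = 1
    rw [h]
    rfl)
  have hsurj : ∀ t : SG, ∃ m ∈ M, pr m = pr t := fun t => by
    obtain ⟨u, hu⟩ := (exists_k τ).choose_spec.2 hk t
    exact ⟨_, hτ u, hu⟩
  have hsq : ∀ t : SG, t * t ∈ M := fun t => by
    obtain ⟨m, hm, h⟩ := hsurj t
    rw [← (sq_of_pr m t h).1]
    exact M.mul_mem hm hm
  have hpw : ∀ (t : SG) (x : ZMod 2), pw (t * t) x ∈ M := fun t x => by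
    unfold pw
    split_ifs
    · exact M.one_mem
    · exact hsq t
  refine hM ((Subgroup.eq_top_iff' M).2 fun t => ?_)
  obtain ⟨m, hm, h⟩ := hsurj t
  obtain ⟨x, y, z, h2⟩ := (sq_of_pr m t h).2
  rw [h2]
  exact M.mul_mem hm (M.mul_mem (M.mul_mem (hpw _ _) (hpw _ _)) (hpw _ _))

end SG

end Pool.Agent.P.MP_ddb4d7_al
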